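import Mathlib
import Pool.Prelude.Def_F_c31e40fa
import Pool.Agent.N253.LC.All
import Pool.Agent.N253.LC.Derv

/-!
# Local connectivity of the Multibrot sets at parameters with a Lyapunov exponent

Let `c₀` be a point of the Multibrot set `M_d` (`d = 2`: the Mandelbrot set) at which the critical
value has a Lyapunov exponent `χ > 0`; almost every external ray lands at such a point, with
`χ = log d`. Let `ψ` be the conformal map of `{|w| > 1}` onto the complement of `M_d`. Then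

* `M_d` is locally connected at `c₀`, with the modulus `r ^ (1 - ε)` for every `ε > 0`: every
  parameter of `M_d ∩ D(c₀, r)` is joined to `c₀` by a continuum in `M_d ∩ D(c₀, r ^ (1 - ε))`;
* some external ray lands at `c₀`; if `c₀` is in the impression of an angle `ζ`, then the impression
  is `{c₀}` and the exponents of `ψ` and of its derivative along the ray are `χ / log d` and
  `χ / log d - 1`; the function `ψ` has the Hölder exponent `χ / log d - ε` at `ζ`, in all directions.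

(The harmonic measure and Green's function of `M_d` have the exponent `log d / χ` at `c₀`; this is
`MP_fcb70f_an.LyapunovParameters`.)
-/

set_option autoImplicit false

open MeasureTheory Filter Metric Topology

namespace Pool.Agent.Results.MP_c6f924_an.LocalConnectivityLyapunov

open Pool.Agent.H713R2 (IsExteriorMap)

/-- The polynomial `z ^ d + c`. -/
def f (d : ℕ) (c : ℂ) : ℂ → ℂ := fun z => z ^ d + c

/-- `c₀` is in the Multibrot set and the critical value `c₀` has the Lyapunov exponent `χ > 0`. -/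
def HasLyapunov (d : ℕ) (χ : ℝ) (c₀ : ℂ) : Prop :=
  0 < χ ∧ c₀ ∈ N62a1eb23.multibrotSet d ∧
    Tendsto (fun n : ℕ => Real.log ‖deriv ((f d c₀)^[n]) c₀‖ / n) atTop (𝓝 χ)

/-- `F t = t ^ (e + o(1))` for `t → 0+`. -/
def PowLaw (F : ℝ → ℝ) (e : ℝ) : Prop :=
  ∀ δ : ℝ, 0 < δ → ∀ᶠ t in 𝓝[>] (0 : ℝ), t ^ (e + δ) ≤ F t ∧ F t ≤ t ^ (e - δ)

/-- The ray of angle `θ` lands at `c`. -/
def Lands (ψ : ℂ → ℂ) (θ : ℝ) (c : ℂ) : Prop :=
  Tendsto (fun r : ℝ => ψ (r * Complex.exp (θ * Complex.I))) (𝓝[>] 1) (𝓝 c)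

/-- The impression of `ζ`: all limits of `ψ (w n)` for sequences `w n → ζ` with `|w n| > 1`. -/
def impression (ψ : ℂ → ℂ) (ζ : ℂ) : Set ℂ := {c | MapClusterPt c (𝓝[{w | 1 < ‖w‖}] ζ) ψ}

/-- The conclusion: local connectivity and the exponents at `c₀`, where `χ` is the Lyapunov
exponent. -/
def Regular (d : ℕ) (χ : ℝ) (c₀ : ℂ) (ψ : ℂ → ℂ) : Prop :=
  -- local connectivity with the modulus `r ^ (1 - ε)`
  (∀ ε : ℝ, 0 < ε → ∃ r₀ : ℝ, 0 < r₀ ∧ ∀ r : ℝ, 0 < r → r ≤ r₀ →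
    ∀ c ∈ N62a1eb23.multibrotSet d, ‖c - c₀‖ ≤ r → ∃ S : Set ℂ, S ⊆ N62a1eb23.multibrotSet d ∧
      IsCompact S ∧ IsConnected S ∧ c ∈ S ∧ c₀ ∈ S ∧ S ⊆ closedBall c₀ (r ^ (1 - ε))) ∧
  -- the external rays
  (∃ θ : ℝ, Lands ψ θ c₀) ∧
  ∀ ζ : ℂ, ‖ζ‖ = 1 → c₀ ∈ impression ψ ζ →
    PowLaw (fun t => ‖ψ (Real.exp t * ζ) - c₀‖) (χ / Real.log d) ∧
    PowLaw (fun t => ‖deriv ψ (Real.exp t * ζ)‖) (χ / Real.log d - 1) ∧
    ∀ ε : ℝ, 0 < ε → ∀ᶠ w in 𝓝[{w | 1 < ‖w‖}] ζ, ‖ψ w - c₀‖ ≤ ‖w - ζ‖ ^ (χ / Real.log d - ε)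

theorem result (d : ℕ) (hd : 2 ≤ d) :
    (∃ ψ : ℂ → ℂ, IsExteriorMap (N62a1eb23.multibrotSet d) ψ) ∧
    ∀ ψ : ℂ → ℂ, IsExteriorMap (N62a1eb23.multibrotSet d) ψ →
      -- parameters with a positive Lyapunov exponent at the critical value
      (∀ (χ : ℝ) (c₀ : ℂ), HasLyapunov d χ c₀ → Regular d χ c₀ ψ) ∧
      -- almost every external ray lands at such a parameter, and the exponent is `log d`
      ∀ᵐ θ : ℝ, ∃ c₀ ∈ frontier (N62a1eb23.multibrotSet d),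
        Lands ψ θ c₀ ∧ HasLyapunov d (Real.log d) c₀ ∧ Regular d (Real.log d) c₀ ψ := by
  obtain ⟨β, hβ⟩ := Pool.Agent.H713R2.exists_beta (d := d) hd
  refine ⟨⟨_, Pool.Agent.H713R2.exteriorMap_of_beta hβ⟩, ?_⟩
  intro ψ hψ
  have hae : ∀ᵐ θ : ℝ, ∃ c₀ ∈ frontier (N62a1eb23.multibrotSet d),
      Lands ψ θ c₀ ∧ HasLyapunov d (Real.log d) c₀ := by
    filter_upwards [Pool.Agent.Y272.TY.ae_neg' (Pool.Agent.Y272.TY.typical_all hd hβ)] with θ hθ
    obtain ⟨c₀, A, R, h⟩ := hθ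
    obtain ⟨h1, h2, h3⟩ := Pool.Agent.Y298.CA.lyap_of_typ hd hβ h
    exact ⟨c₀, h.frontier hd hβ, h.tendsto_psi hβ hψ, h1, h2, h3⟩
  have key : ∀ (χ : ℝ) (c₀ : ℂ), HasLyapunov d χ c₀ → Regular d χ c₀ ψ := by
    intro χ c₀ h
    have hL : Pool.Agent.Y298.CA.Lyap d χ c₀ := ⟨h.1, h.2.1, h.2.2⟩
    have hH := N253.LC.all hd hL hψ
    have hinv : 1 / (Real.log d / χ) = χ / Real.log d := one_div_div _ _
    refine ⟨?_, ?_, ?_⟩
    · intro ε hε
      exact hH.conn' N253.LC.t_CON hε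
    · obtain ⟨ζ, hζ, hc⟩ := hH.exists_ray
      exact hH.lands hζ hc
    · intro ζ hζ hc
      have h1 : PowLaw (fun t => ‖ψ (Real.exp t * ζ) - c₀‖) (χ / Real.log d) := by
        rw [← hinv]
        intro δ hδ
        exact (hH.ray_lower hζ hδ).and (hH.ray_upper hζ hc hδ)
      refine ⟨h1, ?_, ?_⟩
      · refine N253.LC.t_DERV ψ hψ.diff hψ.inj ζ c₀ _ hζ ?_ ?_ h1
        · have : 0 < Real.log d := Real.log_pos (by exact_mod_cast (by omega : 1 < d))
          have := h.1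
          positivity
        · rw [hψ.image]
          exact fun hh => hh h.2.1
      · intro ε hε
        rw [← hinv]
        exact hH.unres N253.LC.t_KOE hζ hc hε
  refine ⟨key, ?_⟩
  filter_upwards [hae] with θ hθ
  obtain ⟨c₀, h1, h2, h3⟩ := hθ
  exact ⟨c₀, h1, h2, h3, key _ c₀ h3⟩

end Pool.Agent.Results.MP_c6f924_an.LocalConnectivityLyapunov
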