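import Mathlib
import Pool.Prelude.Def_F_c31e40fa
import Pool.Agent.N673.TW.Fin5
import Pool.Agent.N673.TW.MakG
import Pool.Agent.N673.TW.Gtr
import Pool.Agent.N673.TW.Shd
import Pool.Agent.N673.TW.Tw2
import Pool.Agent.N673.TW.In2
import Pool.Agent.N673.TW.Nn
import Pool.Agent.N673.TW.Cor
import Pool.Agent.N673.TW.Lcm
import Pool.Agent.N673.TW.Unr
import Pool.Agent.N673.TW.Hr1
import Pool.Agent.N253.LC.All

/-!
# Sharp local connectivity of the Multibrot sets at almost every boundary point

Let `ψ` be the conformal map of `{|z| > 1}` onto the complement of the Multibrot set `M_d`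
(`d = 2`: the Mandelbrot set), tangent to the identity at infinity, `L = log ψ'`, the branch with
`L(∞) = 0`, and `g(x) = √(log (1/x) logloglog (1/x))`. For almost every angle `θ`, with
`ζ = e^{iθ}`, the external ray of angle `θ` lands at a boundary point `c₀` of `M_d`, and there are
`C > 0` and `c > 0` such that

* **local connectivity**: for small `r` every point of `M_d` at distance at most `r` from `c₀` is
  joined to `c₀` by a continuum in `M_d` inside the disc of radius `r log (1/r) ^ C` about `c₀`;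
* **the modulus of continuity of `ψ` at `ζ`, and it is sharp**:
  `|ψ(w) - c₀| ≤ |w - ζ| exp (C g(|w - ζ|))` for all `w`, `|w| > 1`, near `ζ`, and on the ray
  `|ψ(rζ) - c₀| / (r - 1)` is at least `exp (c g(r - 1))` for some `r` arbitrarily near `1`, and at
  most `exp (- c g(r - 1))` for others;
* **harmonic measure**: the harmonic measure of the disc of radius `r` about `c₀` is between
  `r exp (- C g(r))` and `r exp (C g(r))` for all small `r`, it is at least `r exp (c g(r))` for
  arbitrarily small `r`, and at most `r exp (- c g(r))` for arbitrarily small `r`;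
* **the law of the iterated logarithm for `log ψ'` in all directions**: for all real `α`
  `c ≤ limsup_{r → 1+} Re (e^{iα} L(rζ)) / g(r - 1) ≤ 40`. So `log |ψ'|` and `arg ψ'` oscillate
  in both directions on this scale, almost every ray spirals infinitely often in both
  directions, and `ψ` has an angular derivative at almost no point.

In the plane of parameters, harmonic measure of `M_d` is singular with respect to the Hausdorff
measures of the gauge functions `t exp (c g(t))`, `c > 0` small: almost every angle is in the union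
of sets `Z_k` such that the set of the landing points of the rays with angles in `Z_k` is null
for the gauge function with `c = 1 / (k + 1)`. In particular it is singular with respect to length.

(The constants must depend on `θ`: the Julia set of `z ^ 2 - 2` is a segment. The upper bound for
`L` holds for all simply connected domains, by Makarov. The lower bounds and the singularity
are the parameter plane analogues of results of Zdunik and Przytycki-Urbański-Zdunik for Julia sets.)

The proof has three parts. (1) Flat pieces: if `L` were almost constant at most scales along the ray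
of a typical angle, then so would be the pieces of the Julia set of the landing parameter `c₀`, by
the similarity of `M_d` and the Julia set at `c₀`, and limits of these show that this is
impossible. (2) A Bloch function which is non-flat at a positive proportion of the scales along
almost every radius obeys the law of the iterated logarithm in all directions. (3) The critical
orbit of a typical parameter is slowly recurrent; two points of a parameter ray in the disc of radius
`r` at distance `r / 4` have a level which is at least `d ^ (-n)` up to a power of `n`, where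
`|(f^n)'(c₀)| r` is `1` up to a power of `n`, by the contraction along the rays of the Julia sets.

Parts of the proof are due to helper agents: helper56, helper79, helper128, helper136, helper169,
helper170, helper221, helper262, helper277, helper322, helper327, helper401, helper403, helper407,
helper438, helper455, helper507, helper555, helper572, helper650, helper691, helper700, helper760,
helper768, helper814, helper835; it uses the libraries of the typical parameters and of the
parameters with a Lyapunov exponent (helper253, helper272, helper298, helper430 and others).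
-/

set_option autoImplicit false

open MeasureTheory Filter Metric Topology Set

namespace Pool.Agent.Results.MP_c6f924_an.SharpLocalConnectivity

open Pool.Agent.H713R2 (IsExteriorMap)

/-- The scale of the law of the iterated logarithm: `√(log (1/x) logloglog (1/x))`. -/
noncomputable def scale (x : ℝ) : ℝ :=
  √(Real.log (1 / x) * Real.log (Real.log (Real.log (1 / x))))

/-- The gauge function `t exp (a √(log (1/t) logloglog (1/t)))`. -/
noncomputable def gauge (a t : ℝ) : ℝ :=
  t * Real.exp (a * √(Real.log (1 / t) * Real.log (Real.log (Real.log (1 / t)))))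

/-- The Hausdorff measure of `E` for the gauge function `h` is zero: for every `ε > 0`, the set `E`
is covered by countably many discs of radii `r n < ε` with `∑ h (r n) < ε`. -/
def HausdorffNull (h : ℝ → ℝ) (E : Set ℂ) : Prop :=
  ∀ ε : ℝ, 0 < ε → ∃ (c : ℕ → ℂ) (r : ℕ → ℝ), (∀ n, 0 < r n ∧ r n < ε) ∧
    E ⊆ (⋃ n, closedBall (c n) (r n)) ∧ Summable (fun n => h (r n)) ∧ ∑' n, h (r n) < ε

/-- The ray of angle `θ` lands at `c`. -/
def Lands (ψ : ℂ → ℂ) (θ : ℝ) (c : ℂ) : Prop :=
  Tendsto (fun r : ℝ => ψ (r * Complex.exp (θ * Complex.I))) (𝓝[>] 1) (𝓝 c)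

/-- `L` is the logarithm of `ψ'` with `L(∞) = 0`. -/
def IsLogDeriv (ψ L : ℂ → ℂ) : Prop :=
  DifferentiableOn ℂ L {z | 1 < ‖z‖} ∧ (∀ z : ℂ, 1 < ‖z‖ → Complex.exp (L z) = deriv ψ z) ∧
    Tendsto L (Bornology.cobounded ℂ) (𝓝 0)

/-- Some continuum in `M` contains `x` and `c` and lies in the disc of radius `ρ` about `c`. -/
def Joined (M : Set ℂ) (c x : ℂ) (ρ : ℝ) : Prop :=
  ∃ S : Set ℂ, S ⊆ M ∧ IsCompact S ∧ IsConnected S ∧ x ∈ S ∧ c ∈ S ∧ S ⊆ closedBall c ρ

/-- The harmonic measure of the disc of radius `r` about `c₀`, up to the factor `2π`: the length of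
the set of the angles of the rays which land in the disc. -/
noncomputable def harm (ψ : ℂ → ℂ) (c₀ : ℂ) (r : ℝ) : ℝ :=
  (volume {θ : ℝ | θ ∈ Ioc (-Real.pi) Real.pi ∧ ∃ c ∈ ball c₀ r, Lands ψ θ c}).toReal

/-- The properties of a typical angle `θ` with landing point `c₀`. -/
def Typical (M : Set ℂ) (ψ L : ℂ → ℂ) (θ : ℝ) (c₀ : ℂ) : Prop :=
  ∃ C c : ℝ, 0 < C ∧ 0 < c ∧
    -- local connectivity at `c₀` with the modulus `r log (1/r) ^ C`
    (∀ᶠ r : ℝ in 𝓝[>] 0, ∀ x ∈ M, ‖x - c₀‖ ≤ r → Joined M c₀ x (r * Real.log (1 / r) ^ C)) ∧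
    -- the modulus of continuity of `ψ` at `e^{iθ}`
    (∀ᶠ w in 𝓝[{w : ℂ | 1 < ‖w‖}] Complex.exp (θ * Complex.I),
      ‖ψ w - c₀‖ ≤ ‖w - Complex.exp (θ * Complex.I)‖ *
        Real.exp (C * scale ‖w - Complex.exp (θ * Complex.I)‖)) ∧
    -- it is sharp
    (∃ᶠ r : ℝ in 𝓝[>] 1, (r - 1) * Real.exp (c * scale (r - 1)) ≤
      ‖ψ (r * Complex.exp (θ * Complex.I)) - c₀‖) ∧
    (∃ᶠ r : ℝ in 𝓝[>] 1, ‖ψ (r * Complex.exp (θ * Complex.I)) - c₀‖ ≤
      (r - 1) * Real.exp (-(c * scale (r - 1)))) ∧
    -- harmonic measure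
    (∀ᶠ r : ℝ in 𝓝[>] 0, r * Real.exp (-(C * scale r)) ≤ harm ψ c₀ r ∧
      harm ψ c₀ r ≤ r * Real.exp (C * scale r)) ∧
    (∃ᶠ r : ℝ in 𝓝[>] 0, r * Real.exp (c * scale r) ≤ harm ψ c₀ r) ∧
    (∃ᶠ r : ℝ in 𝓝[>] 0, harm ψ c₀ r ≤ r * Real.exp (-(c * scale r))) ∧
    -- the law of the iterated logarithm for `log ψ'` in all directions
    (∀ᶠ r : ℝ in 𝓝[>] 1, ‖L (r * Complex.exp (θ * Complex.I))‖ ≤ 40 * scale (r - 1)) ∧
    ∀ α : ℝ, ∃ᶠ r : ℝ in 𝓝[>] 1, c * scale (r - 1) ≤
      (Complex.exp (α * Complex.I) * L (r * Complex.exp (θ * Complex.I))).re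

theorem result (d : ℕ) (hd : 2 ≤ d) :
    (∃ ψ : ℂ → ℂ, IsExteriorMap (N62a1eb23.multibrotSet d) ψ) ∧
    ∀ ψ : ℂ → ℂ, IsExteriorMap (N62a1eb23.multibrotSet d) ψ →
      ∃ L : ℂ → ℂ, IsLogDeriv ψ L ∧
        (∀ᵐ θ : ℝ, ∃ c₀ ∈ frontier (N62a1eb23.multibrotSet d), Lands ψ θ c₀ ∧
          Typical (N62a1eb23.multibrotSet d) ψ L θ c₀) ∧
        -- harmonic measure is singular for the gauge functions with small constants
        ∃ Z : ℕ → Set ℝ, (∀ᵐ θ : ℝ, ∃ k, θ ∈ Z k) ∧
          ∀ k : ℕ, HausdorffNull (gauge (1 / ((k : ℝ) + 1))) {c₀ : ℂ | ∃ θ ∈ Z k, Lands ψ θ c₀} := by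
  obtain ⟨β, hβ⟩ := Pool.Agent.H713R2.exists_beta (d := d) hd
  refine ⟨⟨_, Pool.Agent.H713R2.exteriorMap_of_beta hβ⟩, ?_⟩
  intro ψ hψ
  have hE : Pool.Agent.N253.SM.S_EXP :=
    Pool.Agent.N253.SM.t_EXP Pool.Agent.N253.SM.t_FREE Pool.Agent.N253.SM.t_BND
  have hQ : Pool.Agent.N253.LC.S_EXQ :=
    Pool.Agent.N253.LC.t_EXQ Pool.Agent.N253.SM.t_FREE Pool.Agent.N253.LC.t_BND2 hE
  have hP : Pool.Agent.N253.LC.S_PULL := Pool.Agent.N253.LC.t_PULL hQ Pool.Agent.N253.LC.t_BACK
  have hX : Pool.Agent.N253.LC.S_EXC := Pool.Agent.N253.LC.t_EXC Pool.Agent.N253.LC.t_SHAD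
  have hD : Pool.Agent.N253.LC.S_DISP :=
    Pool.Agent.N253.LC.t_DISP hQ hP hX Pool.Agent.N253.LC.t_DER Pool.Agent.N253.LC.t_INT
  have hC : Pool.Agent.N253.LC.S_CMP :=
    Pool.Agent.N253.LC.t_CMP Pool.Agent.N253.LC.t_SHAD hQ Pool.Agent.N253.LC.t_BACK
  obtain ⟨L, h1, h2, h3, h4, h5⟩ := Pool.Agent.N673.TW.Fin.fin5 (Pool.Agent.N673.TW.Shd.t hQ)
    (Pool.Agent.N673.TW.Nn.t (Pool.Agent.N673.TW.In2.t
      (Pool.Agent.N673.TW.Tw2.t hD hC Pool.Agent.N253.LC.t_COORD) Pool.Agent.N253.LC.t_LIM))
    Pool.Agent.N673.TW.Cor.t (Pool.Agent.N673.TW.Unr.t Pool.Agent.N673.TW.Cor.t)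
    (Pool.Agent.N673.TW.Lcm.t Pool.Agent.N253.LC.t_CON)
    (Pool.Agent.N673.TW.Hr1.t Pool.Agent.N673.TW.Cor.t Pool.Agent.N253.LC.t_HARM)
    (Pool.Agent.N673.TW.MakG.t Pool.Agent.N673.TW.Fin.l1) Pool.Agent.N673.TW.Gtr.t hd hψ
  exact ⟨L, ⟨h1, h2, h3⟩, h4, h5⟩

end Pool.Agent.Results.MP_c6f924_an.SharpLocalConnectivity
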