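import Mathlib
import Pool.Prelude.Def_F_c31e40fa
import Pool.Agent.N253.SM.Fin
import Pool.Agent.N253.SM.Bnd
import Pool.Agent.N253.SM.Free
import Pool.Agent.N253.SM.Exp
import Pool.Agent.N253.SM.Zf
import Pool.Agent.N253.SM.Scht
import Pool.Agent.N253.SM.Fwd
import Pool.Agent.N253.SM.Lin
import Pool.Agent.N253.MS.Ex

/-!
# Similarity of the Mandelbrot set and the Julia set at parameters with a Lyapunov exponent

Let `c₀` be a point of the Multibrot set `M_d` (`d = 2`: the Mandelbrot set) at which the critical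
value has a Lyapunov exponent `χ > 0`; almost every external ray lands at such a point, with
`χ = log d`. Let `J` be the Julia set of `z ^ d + c₀`, let `L = ∑ 1 / (f^k)' (c₀)`, and let
`A (c) = c₀ + L (c - c₀)`. Then `L ≠ 0`, and for every `σ < 1 + 1 / d` and all small `r`

* every point of `A (M_d ∩ D(c₀, r))` is at distance at most `r ^ σ` from `J`;
* every point of `J ∩ D(c₀, r)` is at distance at most `r ^ σ` from `A (c')` for some
  superattracting parameter `c'`;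
* the filled Julia sets `K_c`, `|c - c₀| ≤ r`, are in the `r ^ (σ - 1)` neighbourhood of `J`, and,
  if `c ∈ M_d`, `J` is in the `r ^ (σ - 1)` neighbourhood of `K_c`.
-/

set_option autoImplicit false

open MeasureTheory Filter Metric Topology

namespace Pool.Agent.Results.MP_c6f924_an.SimilarityLyapunov

open Pool.Agent.H713R2 (IsExteriorMap)

/-- The polynomial `z ^ d + c`. -/
def f (d : ℕ) (c : ℂ) : ℂ → ℂ := fun z => z ^ d + c

/-- The filled Julia set of `z ^ d + c`: the points whose orbit does not tend to infinity. -/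
def filledJulia (d : ℕ) (c : ℂ) : Set ℂ :=
  {z | ¬ Tendsto (fun n : ℕ => (f d c)^[n] z) atTop (Bornology.cobounded ℂ)}

/-- The Julia set of `z ^ d + c`. -/
def julia (d : ℕ) (c : ℂ) : Set ℂ := frontier (filledJulia d c)

/-- The critical point `0` of `z ^ d + c` is periodic. -/
def Superattracting (d : ℕ) (c : ℂ) : Prop := ∃ n : ℕ, 1 ≤ n ∧ (f d c)^[n] 0 = 0

/-- The ratio `L = ∑ 1 / (f^k)' (c₀)` of similarity. -/
noncomputable def ratio (d : ℕ) (c₀ : ℂ) : ℂ := ∑' k : ℕ, 1 / deriv ((f d c₀)^[k]) c₀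

/-- The similarity `A (c) = c₀ + L (c - c₀)`. -/
noncomputable def A (d : ℕ) (c₀ c : ℂ) : ℂ := c₀ + ratio d c₀ * (c - c₀)

/-- Similarity of the Multibrot set and of the Julia set at `c₀`, with a power rate. -/
def Similar (d : ℕ) (c₀ : ℂ) : Prop :=
  filledJulia d c₀ = julia d c₀ ∧
  Summable (fun k : ℕ => ‖1 / deriv ((f d c₀)^[k]) c₀‖) ∧ ratio d c₀ ≠ 0 ∧
  ∀ σ : ℝ, σ < 1 + 1 / d → ∃ r₀ : ℝ, 0 < r₀ ∧ ∀ r : ℝ, 0 < r → r ≤ r₀ →
    -- the image of the Multibrot set is close to the Julia set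
    (∀ c ∈ N62a1eb23.multibrotSet d, ‖c - c₀‖ ≤ r → ∃ z ∈ julia d c₀, ‖z - A d c₀ c‖ ≤ r ^ σ) ∧
    -- the Julia set is close to the image of the set of superattracting parameters
    (∀ z ∈ julia d c₀, ‖z - c₀‖ ≤ r → ∃ c, Superattracting d c ∧ ‖A d c₀ c - z‖ ≤ r ^ σ) ∧
    -- the filled Julia sets for the parameters near `c₀` are close to the Julia set
    ∀ c : ℂ, ‖c‖ ≤ 2 → ‖c - c₀‖ ≤ r →
      (∀ w ∈ filledJulia d c, ∃ z ∈ julia d c₀, ‖z - w‖ ≤ r ^ (σ - 1)) ∧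
      (c ∈ N62a1eb23.multibrotSet d →
        ∀ z ∈ julia d c₀, ∃ w ∈ filledJulia d c, ‖w - z‖ ≤ r ^ (σ - 1))

theorem result (d : ℕ) (hd : 2 ≤ d) :
    -- parameters with a positive Lyapunov exponent at the critical value
    (∀ (χ : ℝ) (c₀ : ℂ), 0 < χ → c₀ ∈ N62a1eb23.multibrotSet d →
      Tendsto (fun n : ℕ => Real.log ‖deriv ((f d c₀)^[n]) c₀‖ / n) atTop (𝓝 χ) →
      Similar d c₀) ∧
    -- almost every external ray lands at such a parameter, and the exponent is `log d`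
    (∃ ψ : ℂ → ℂ, IsExteriorMap (N62a1eb23.multibrotSet d) ψ) ∧
    ∀ ψ : ℂ → ℂ, IsExteriorMap (N62a1eb23.multibrotSet d) ψ →
      ∀ᵐ θ : ℝ, ∃ c₀ ∈ frontier (N62a1eb23.multibrotSet d),
        Tendsto (fun r : ℝ => ψ (r * Complex.exp (θ * Complex.I))) (𝓝[>] 1) (𝓝 c₀) ∧
        Tendsto (fun n : ℕ => Real.log ‖deriv ((f d c₀)^[n]) c₀‖ / n) atTop (𝓝 (Real.log d)) ∧
        Similar d c₀ := by
  have key : ∀ (χ : ℝ) (c₀ : ℂ), 0 < χ → c₀ ∈ N62a1eb23.multibrotSet d →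
      Tendsto (fun n : ℕ => Real.log ‖deriv ((f d c₀)^[n]) c₀‖ / n) atTop (𝓝 χ) →
      Similar d c₀ := by
    intro χ c₀ hχ hc₀ hlim
    have h : Pool.Agent.Y298.CA.Lyap d χ c₀ := ⟨hχ, hc₀, hlim⟩
    obtain ⟨⟨C₁, lam, hCE⟩, -⟩ := Pool.Agent.Y674.CA.lya d χ c₀ hd h
    have hE : N253.SM.S_EXP := N253.SM.t_EXP N253.SM.t_FREE N253.SM.t_BND
    have hZ : N253.SM.S_Z := N253.SM.t_Z hE N253.SM.t_ZF N253.SM.t_SCHT
    have hLn : N253.SM.S_LIN := N253.SM.t_LIN N253.SM.t_FWD N253.SM.t_TAY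
    have hbb : ∀ k : ℕ, 1 / deriv ((f d c₀)^[k]) c₀ = Pool.Agent.Y298.SH.bb d c₀ k := by
      intro k
      rw [one_div]
      rfl
    have hra : ratio d c₀ = ∑' k, Pool.Agent.Y298.SH.bb d c₀ k := by
      unfold ratio
      exact tsum_congr hbb
    have hra0 : ratio d c₀ ≠ 0 := by
      rw [hra]; exact hCE.trans
    have hKK : ∀ c, filledJulia d c = Pool.Agent.H713R2.AR.KK d c := fun c => rfl
    have hKJ : filledJulia d c₀ = julia d c₀ := by
      unfold julia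
      rw [hKK]
      have h1 := Pool.Agent.Y298.SH.CD.isCompact_KK hd (N253.SM.bd_self hd hc₀)
      rw [frontier, h1.isClosed.closure_eq, N253.SM.interior_KK hE hd h, Set.diff_empty]
    refine ⟨hKJ, ?_, hra0, ?_⟩
    · simp only [hbb]
      exact hCE.summable_bb
    · intro σ hσ
      obtain ⟨r₁, hr₁, H1⟩ := N253.SM.sim_a hZ hLn hd h hσ
      obtain ⟨r₂, hr₂, H2⟩ := N253.SM.sim_b hZ hLn hd h hσ (by rw [← hra]; exact hra0)
      obtain ⟨r₃, hr₃, H3⟩ := N253.SM.sim_c hZ hd h (σ := σ - 1) (by linarith)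
      rw [← hKJ]
      refine ⟨min r₁ (min r₂ r₃), by positivity, fun r hr hrr => ⟨?_, ?_, ?_⟩⟩
      · intro c hc hcr
        obtain ⟨z, hz, hz'⟩ := H1 r hr (hrr.trans (min_le_left _ _)) c hc hcr
        refine ⟨z, hz, ?_⟩
        unfold A
        rw [hra]
        exact hz'
      · intro z hz hzr
        obtain ⟨p, c, hp, hpc, hc⟩ := H2 r hr
          (hrr.trans ((min_le_right _ _).trans (min_le_left _ _))) z hz hzr
        refine ⟨c, ⟨p, hp, hpc⟩, ?_⟩
        unfold A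
        rw [hra]
        exact hc
      · intro c hc2 hc
        obtain ⟨h1, h2⟩ := H3 r hr
          (hrr.trans ((min_le_right _ _).trans (min_le_right _ _))) c hc2 hc
        exact ⟨h1, h2⟩
  refine ⟨key, ?_⟩
  obtain ⟨β, hβ⟩ := Pool.Agent.H713R2.exists_beta (d := d) hd
  refine ⟨⟨_, Pool.Agent.H713R2.exteriorMap_of_beta hβ⟩, ?_⟩
  intro ψ hψ
  filter_upwards [Pool.Agent.Y272.TY.ae_neg' (Pool.Agent.Y272.TY.typical_all hd hβ)] with θ hθ
  obtain ⟨c₀, A, R, h⟩ := hθ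
  obtain ⟨h1, h2, h3⟩ := Pool.Agent.Y298.CA.lyap_of_typ hd hβ h
  exact ⟨c₀, h.frontier hd hβ, h.tendsto_psi hβ hψ, h3, key _ c₀ h1 h2 h3⟩

end Pool.Agent.Results.MP_c6f924_an.SimilarityLyapunov
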