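import Mathlib
import Pool.Prelude.Def_F_c31e40fa
import Pool.Agent.N253.LS.All

/-!
# Small impressions near almost every boundary point of the Mandelbrot set

Let `c₀` be a point of the Multibrot set `M_d` (`d = 2`: the Mandelbrot set) at which the critical
value has a Lyapunov exponent `χ > 0`; almost every external ray lands at such a point, with
`χ = log d`. Let `ψ` be the conformal map of `{|w| > 1}` onto the complement of `M_d`, and put
`E = d / (d - 1)`, which is `2` for the Mandelbrot set.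

For every `ε > 0` and all small `R`

* every impression (of an angle) which meets the disc `D(c₀, R)` has diameter at most `R ^ (E - ε)`;
* `M_d` is locally connected up to the size `R ^ (E - ε)` at ALL its points in `D(c₀, R)`: points of
  `M_d` at a small distance `δ` (the same for all points of the disc) are joined by a continuum in
  `M_d` of this size.

So a failure of local connectivity near `c₀`, for example at an infinitely renormalizable parameter,
can only be seen at a scale which is much smaller than the distance of this parameter to `c₀`.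

Method. (a) A connected set of parameters in `D(c₀, R)` whose critical orbits enter the disc of radius
`R ^ τ` about the critical point, `τ < 1 / (d - 1)`, has diameter at most `R ^ (1 + τ - ε)`: the
entries are followed backwards, with expansion in the dynamical planes of all parameters of
`D(c₀, R)` (`Pool.Agent.N253.EC`). (b) The other parameters of `M_d ∩ D(c₀, R)` are Collet-Eckmann
parameters without recurrence, and all impressions are trivial at such parameters, because of a bound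
for the displacement along external rays which is uniform for all perturbations
(`Pool.Agent.N253.LS`).
-/

set_option autoImplicit false

open MeasureTheory Filter Metric Topology

namespace Pool.Agent.Results.MP_c6f924_an.SmallImpressions

open Pool.Agent.H713R2 (IsExteriorMap)

/-- The polynomial `z ^ d + c`. -/
def f (d : ℕ) (c : ℂ) : ℂ → ℂ := fun z => z ^ d + c

/-- `c₀` is in the Multibrot set and the critical value `c₀` has the Lyapunov exponent `χ > 0`. -/
def HasLyapunov (d : ℕ) (χ : ℝ) (c₀ : ℂ) : Prop :=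
  0 < χ ∧ c₀ ∈ N62a1eb23.multibrotSet d ∧
    Tendsto (fun n : ℕ => Real.log ‖deriv ((f d c₀)^[n]) c₀‖ / n) atTop (𝓝 χ)

/-- The ray of angle `θ` lands at `c`. -/
def Lands (ψ : ℂ → ℂ) (θ : ℝ) (c : ℂ) : Prop :=
  Tendsto (fun r : ℝ => ψ (r * Complex.exp (θ * Complex.I))) (𝓝[>] 1) (𝓝 c)

/-- The impression of `ζ`: all limits of `ψ (w n)` for sequences `w n → ζ` with `|w n| > 1`. -/
def impression (ψ : ℂ → ℂ) (ζ : ℂ) : Set ℂ := {c | MapClusterPt c (𝓝[{w | 1 < ‖w‖}] ζ) ψ}

/-- All impressions near `c₀` are small, and `M_d` is locally connected up to a small size at all its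
points near `c₀`. -/
def SmallNear (d : ℕ) (c₀ : ℂ) (ψ : ℂ → ℂ) : Prop :=
  ∀ ε : ℝ, 0 < ε → ∃ R₀ : ℝ, 0 < R₀ ∧ ∀ R : ℝ, 0 < R → R ≤ R₀ →
    -- the impressions
    (∀ ζ : ℂ, ‖ζ‖ = 1 → (impression ψ ζ ∩ closedBall c₀ R).Nonempty →
      ∀ c ∈ impression ψ ζ, ∀ c' ∈ impression ψ ζ, ‖c - c'‖ ≤ R ^ ((d : ℝ) / (d - 1) - ε)) ∧
    -- local connectivity up to a given size
    ∃ δ : ℝ, 0 < δ ∧ ∀ c ∈ N62a1eb23.multibrotSet d, ‖c - c₀‖ ≤ R →
      ∀ c' ∈ N62a1eb23.multibrotSet d, ‖c' - c‖ ≤ δ → ∃ S : Set ℂ, S ⊆ N62a1eb23.multibrotSet d ∧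
        IsCompact S ∧ IsConnected S ∧ c ∈ S ∧ c' ∈ S ∧
        S ⊆ closedBall c (R ^ ((d : ℝ) / (d - 1) - ε))

theorem result (d : ℕ) (hd : 2 ≤ d) :
    (∃ ψ : ℂ → ℂ, IsExteriorMap (N62a1eb23.multibrotSet d) ψ) ∧
    ∀ ψ : ℂ → ℂ, IsExteriorMap (N62a1eb23.multibrotSet d) ψ →
      -- parameters with a positive Lyapunov exponent at the critical value
      (∀ (χ : ℝ) (c₀ : ℂ), HasLyapunov d χ c₀ → SmallNear d c₀ ψ) ∧
      -- almost every external ray lands at such a parameter, and the exponent is `log d`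
      ∀ᵐ θ : ℝ, ∃ c₀ ∈ frontier (N62a1eb23.multibrotSet d),
        Lands ψ θ c₀ ∧ HasLyapunov d (Real.log d) c₀ ∧ SmallNear d c₀ ψ := by
  obtain ⟨β, hβ⟩ := Pool.Agent.H713R2.exists_beta (d := d) hd
  refine ⟨⟨_, Pool.Agent.H713R2.exteriorMap_of_beta hβ⟩, ?_⟩
  intro ψ hψ
  have near : ∀ (χ : ℝ) (c₀ : ℂ), HasLyapunov d χ c₀ → SmallNear d c₀ ψ := by
    intro χ c₀ h ε hε
    have hL : Pool.Agent.Y298.CA.Lyap d χ c₀ := ⟨h.1, h.2.1, h.2.2⟩
    obtain ⟨R₁, hR₁, H1⟩ := N253.LS.impressions_all hd hL hε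
    obtain ⟨R₂, hR₂, H2⟩ := N253.LS.up_to_size_all hd hL hε
    refine ⟨min R₁ R₂, lt_min hR₁ hR₂, fun R hR hRR => ⟨?_, ?_⟩⟩
    · rintro ζ hζ ⟨c₁, hc₁, hc₁R⟩ c hc c' hc'
      have hc₁R' : ‖c₁ - c₀‖ ≤ 2 * R := by
        rw [mem_closedBall, dist_eq_norm] at hc₁R
        linarith
      have hpos : 0 < R ^ ((d : ℝ) / (d - 1) - ε) := Real.rpow_pos_of_pos hR _
      have h1 := H1 R hR (hRR.trans (min_le_left _ _)) ψ hψ ζ hζ c₁ hc₁ hc₁R' c hc
      have h2 := H1 R hR (hRR.trans (min_le_left _ _)) ψ hψ ζ hζ c₁ hc₁ hc₁R' c' hc'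
      have h3 := norm_sub_le (c - c₁) (c' - c₁)
      rw [sub_sub_sub_cancel_right] at h3
      linarith
    · exact H2 R hR (hRR.trans (min_le_right _ _))
  refine ⟨near, ?_⟩
  filter_upwards [Pool.Agent.Y272.TY.ae_neg' (Pool.Agent.Y272.TY.typical_all hd hβ)] with θ hθ
  obtain ⟨c₀, A, R, h⟩ := hθ
  obtain ⟨h1, h2, h3⟩ := Pool.Agent.Y298.CA.lyap_of_typ hd hβ h
  exact ⟨c₀, h.frontier hd hβ, h.tendsto_psi hβ hψ, ⟨h1, h2, h3⟩, near _ c₀ ⟨h1, h2, h3⟩⟩

end Pool.Agent.Results.MP_c6f924_an.SmallImpressions
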